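import Mathlib

set_option autoImplicit false

namespace Pool.Agent.Results.MP_a2bddf_an.Yes

open Set Filter Topology Real

lemma jump (y : ℝ) : ∃ u, |u| = π / 2 ∧ 1 ≤ |cos (y + u) - cos y| := by
  have p : |π / 2| = π / 2 := abs_of_pos (by positivity)
  by_contra h
  push Not at h
  have a := abs_lt.1 (h _ p)
  have b := abs_lt.1 (h (-(π / 2)) (by rwa [abs_neg]))
  rw [cos_add_pi_div_two] at a
  rw [← sub_eq_add_neg, cos_sub_pi_div_two] at b
  nlinarith [sin_sq_add_cos_sq y]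

lemma good {δ : ℝ} {W : ℝ → ℝ} (h0 : Tendsto W (𝓝[>] 0) (𝓝 0))
    (h1 : Tendsto (fun t => W t / t) (𝓝[>] 0) atTop) (hδ : 0 < δ) {ε : ℝ} (hε : 0 < ε) (S : ℝ) :
    ∃ h ∈ Ioo 0 δ, (∀ t ∈ Ioc 0 h, W h / h ≤ 2 * (W t / t)) ∧ W h ≤ ε ∧ S ≤ W h / h := by
  obtain ⟨e, e0, he⟩ := mem_nhdsGT_iff_exists_Ioc_subset.1 (((h0.eventually (ge_mem_nhds hε)).and
    (h1.eventually_ge_atTop (max 1 S))).and (Ioo_mem_nhdsGT hδ))
  have bd : ∀ t ∈ Ioc 0 e, 1 ≤ W t / t := fun t ht => (le_max_left _ _).trans (he ht).1.2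
  have ne : ((fun t => W t / t) '' Ioc 0 e).Nonempty := ⟨_, e, ⟨e0, le_rfl⟩, rfl⟩
  have m1 : 1 ≤ sInf ((fun t => W t / t) '' Ioc 0 e) := le_csInf ne (forall_mem_image.2 bd)
  obtain ⟨_, ⟨h, hh, rfl⟩, lt⟩ := exists_lt_of_csInf_lt ne (b := 2 * sInf ((fun t => W t / t) '' Ioc 0 e)) (by linarith)
  refine ⟨h, (he hh).2, fun t ht => lt.le.trans ?_, (he hh).1.1, (le_max_right _ _).trans (he hh).1.2⟩
  gcongr
  exact csInf_le ⟨1, forall_mem_image.2 bd⟩ ⟨t, ⟨ht.1, ht.2.trans hh.2⟩, rfl⟩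

theorem result (δ : ℝ) (hδ : 0 < δ) (w φ : ℝ → ℝ)
    (w0 : ∀ t ∈ Ioo 0 δ, 0 < w t) (φ0 : ∀ t ∈ Ioo 0 δ, 0 < φ t)
    (wm : MonotoneOn w (Ioo 0 δ)) (φm : MonotoneOn φ (Ioo 0 δ)) (wt : Tendsto w (𝓝[>] 0) (𝓝 0))
    (h1 : Tendsto (fun t => w t / t) (𝓝[>] 0) atTop)
    (h2 : Tendsto (fun t => w t / φ t) (𝓝[>] 0) atTop) :
    ∃ f : ℝ → ℝ, (∀ x h, 0 < |h| → |h| < δ → |f (x + h) - f x| < w |h|) ∧
      ∀ x M, ∃ᶠ h in 𝓝[≠] 0, M < |(f (x + h) - f x) / φ (|h|)| := by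
  let G := {h // h ∈ Ioo 0 δ ∧ (∀ t ∈ Ioc 0 h, w h / h ≤ 2 * (w t / t)) ∧ 1 ≤ w h / h}
  have step : ∀ g : G, ∃ g' : G, w g' ≤ w g / 16 ∧ 16 * (w g / g) ≤ w g' / g' := fun g => by
    obtain ⟨h, a, b, c, d⟩ := good wt h1 hδ (ε := w g / 16) (by have := w0 _ g.2.1; positivity)
      (16 * (w g / g))
    exact ⟨⟨h, a, b, by linarith [g.2.2.2]⟩, c, d⟩
  choose nx n1 n2 using step
  obtain ⟨h₀, a₀, b₀, -, d₀⟩ := good wt h1 hδ one_pos 1
  let g : ℕ → G := fun n => nx^[n] ⟨h₀, a₀, b₀, d₀⟩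
  have gs : ∀ n, g (n + 1) = nx (g n) := fun n => Function.iterate_succ_apply' _ _ _
  obtain ⟨r, hr, hg, hs1, ha, hs⟩ : ∃ r : ℕ → ℝ, (∀ n, r n ∈ Ioo 0 δ) ∧
      (∀ n, ∀ t ∈ Ioc 0 (r n), w (r n) / r n ≤ 2 * (w t / t)) ∧ (∀ n, 1 ≤ w (r n) / r n) ∧
      (∀ n, w (r (n + 1)) ≤ w (r n) / 16) ∧
      ∀ n, 16 * (w (r n) / r n) ≤ w (r (n + 1)) / r (n + 1) :=
    ⟨fun n => g n, fun n => (g n).2.1, fun n => (g n).2.2.1, fun n => (g n).2.2.2,
      fun n => by simpa only [gs] using n1 _, fun n => by simpa only [gs] using n2 _⟩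
  clear g gs n1 n2 nx
  set a : ℕ → ℝ := fun n => w (r n) with ea
  have a0 : ∀ n, 0 < a n := fun n => w0 _ (hr n)
  have r0 : ∀ n, 0 < r n := fun n => (hr n).1
  have geo : ∀ n k, a (k + n) ≤ a n * (1 / 16) ^ k := fun n k => by
    induction k with
    | zero => simp
    | succ k ih =>
      rw [pow_succ, add_right_comm]
      linarith [ha (k + n)]
  have gs : ∀ n, HasSum (fun k => a n * (1 / 16) ^ k) (a n * (16 / 15)) := fun n => by
    rw [show (16 / 15 : ℝ) = (1 - 1 / 16)⁻¹ by norm_num]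
    exact (hasSum_geometric_of_lt_one (by norm_num) (by norm_num)).mul_left (a n)
  have low : ∀ n, ∑ k ∈ Finset.range n, a k / r k ≤ a n / r n / 15 := fun n => by
    induction n with
    | zero => have := hs1 0; simp only [Finset.sum_range_zero]; positivity
    | succ n ih =>
      rw [Finset.sum_range_succ]
      linarith [hs n]
  have rt : Tendsto r atTop (𝓝 0) := by
    refine squeeze_zero (fun n => (r0 n).le) (fun n => ?_) (gs 0).summable.tendsto_atTop_zero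
    exact ((one_le_div (r0 n)).1 (hs1 n)).trans (geo 0 n)
  let u : ℝ → ℕ → ℝ := fun x k => a k * cos (2 * x / r k)
  have us : ∀ x, Summable (u x) := fun x => .of_norm_bounded (gs 0).summable fun k => by
    refine le_trans ?_ (geo 0 k)
    rw [norm_mul, Real.norm_of_nonneg (a0 k).le]
    exact mul_le_of_le_one_right (a0 k).le (abs_cos_le_one _)
  have d1 : ∀ x t k, |u (x + t) k - u x k| ≤ a k / r k * (2 * |t|) := fun x t k => by
    rw [← mul_sub, abs_mul, abs_of_pos (a0 k), div_mul_eq_mul_div (a k), mul_div_assoc (a k)]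
    refine mul_le_mul_of_nonneg_left ((abs_cos_sub_cos_le _ _).trans_eq ?_) (a0 k).le
    rw [← sub_div, abs_div, abs_of_pos (r0 k), ← mul_sub, add_sub_cancel_left, abs_mul, abs_two]
  have d2 : ∀ x t n, |∑' k, (u (x + t) (k + n) - u x (k + n))| ≤ a n * (16 / 15) * 2 := fun x t n => by
    rw [← Real.norm_eq_abs]
    refine tsum_of_norm_bounded ((gs n).mul_right 2) fun k => ?_
    rw [← mul_sub, norm_mul, Real.norm_of_nonneg (a0 _).le]
    refine mul_le_mul (geo n k) ((abs_sub _ _).trans ?_) (norm_nonneg _) (by have := a0 n; positivity)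
    linarith [abs_cos_le_one (2 * (x + t) / r (k + n)), abs_cos_le_one (2 * x / r (k + n))]
  have d3 : ∀ x t n, |∑ k ∈ Finset.range n, (u (x + t) k - u x k)| ≤ a n / r n / 15 * (2 * |t|) :=
    fun x t n => by
      refine (Finset.abs_sum_le_sum_abs _ _).trans ((Finset.sum_le_sum fun k _ => d1 x t k).trans ?_)
      rw [← Finset.sum_mul]
      gcongr
      exact low n
  have sp : ∀ x t n, (∑' k, u (x + t) k) / 32 - (∑' k, u x k) / 32 =
      (∑ k ∈ Finset.range n, (u (x + t) k - u x k) + ∑' k, (u (x + t) (k + n) - u x (k + n))) / 32 :=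
    fun x t n => by
      rw [((us (x + t)).sub (us x)).sum_add_tsum_nat_add, (us _).tsum_sub (us _), sub_div]
  refine ⟨fun x => (∑' k, u x k) / 32, fun x t t0 t1 => ?_, fun x M => ?_⟩
  · have ex : ∃ n, r n < |t| := (rt.eventually (gt_mem_nhds t0)).exists
    have wp := w0 _ ⟨t0, t1⟩
    have b1 : a (Nat.find ex) ≤ w |t| := wm (hr _) ⟨t0, t1⟩ (Nat.find_spec ex).le
    have b2 := abs_le.1 (d2 x t (Nat.find ex))
    have b3 : |∑ k ∈ Finset.range (Nat.find ex), (u (x + t) k - u x k)| ≤ 8 * w |t| := by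
      rcases h : Nat.find ex with _ | m
      · simpa using wp.le
      have c := hg m _ ⟨t0, not_lt.1 (Nat.find_min ex (by omega))⟩
      rw [← mul_div_assoc, le_div_iff₀ t0] at c
      rw [Finset.sum_range_succ]
      linarith [abs_add_le (∑ k ∈ Finset.range m, (u (x + t) k - u x k)) (u (x + t) m - u x m),
        d1 x t m, d3 x t m]
    have b3 := abs_le.1 b3
    rw [sp x t (Nat.find ex), abs_lt]
    constructor <;> linarith [b2.1, b2.2, b3.1, b3.2]
  choose v v1 v2 using jump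
  let t : ℕ → ℝ := fun n => v (2 * x / r n) * r n / 2
  have p4 := pi_le_four
  have p0 := pi_pos
  have ta : ∀ n, |t n| = π / 4 * r n := fun n => by
    simp only [t, abs_div, abs_mul, v1, abs_of_pos (r0 n), abs_two]
    ring
  have t0 : ∀ n, 0 < |t n| := fun n => by rw [ta]; have := r0 n; positivity
  have t1 : ∀ n, |t n| ≤ r n := fun n => by rw [ta]; nlinarith [r0 n]
  have tt : Tendsto t atTop (𝓝[≠] 0) := tendsto_nhdsWithin_iff.2
    ⟨squeeze_zero_norm t1 rt, .of_forall fun n => abs_pos.1 (t0 n)⟩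
  refine tt.frequently (Eventually.frequently ?_)
  filter_upwards [(h2.comp (tendsto_nhdsWithin_iff.2 ⟨rt, .of_forall r0⟩)).eventually_gt_atTop
    (64 * max M 0)] with n hn
  have m : |t n| ∈ Ioo 0 δ := ⟨t0 n, (t1 n).trans_lt (hr n).2⟩
  have f0 := φ0 _ m
  have f1 := φm m (hr n) (t1 n)
  rw [Function.comp, lt_div_iff₀ (φ0 _ (hr n))] at hn
  rw [abs_div, abs_of_pos f0, lt_div_iff₀ f0, sp x _ (n + 1), Finset.sum_range_succ]
  have c1 : a n ≤ |u (x + t n) n - u x n| := by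
    rw [← mul_sub, abs_mul, abs_of_pos (a0 n)]
    refine le_mul_of_one_le_right (a0 n).le ((v2 (2 * x / r n)).trans_eq ?_)
    have := (r0 n).ne'
    congr 3
    simp only [t]
    field_simp
  have c2 := abs_le.1 (d2 x (t n) (n + 1))
  have c3 := abs_le.1 ((d3 x (t n) n).trans (c := a n / 15 * 2) (by
    have := r0 n
    have := a0 n
    calc _ ≤ a n / r n / 15 * (2 * r n) := by gcongr; exact t1 n
      _ = _ := by field_simp))
  have c4 := ha n
  have c5 : M * φ |t n| ≤ max M 0 * φ (r n) := mul_le_mul (le_max_left _ _) f1 f0.le (le_max_right _ _)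
  rw [lt_abs]
  rcases le_abs.1 c1 with c | c
  · left
    linarith [c2.1, c3.1, a0 n]
  · right
    linarith [c2.2, c3.2, a0 n]

end Pool.Agent.Results.MP_a2bddf_an.Yes
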